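import Mathlib

/-!
# Left-cut-percolation versus transitivity under fold involutions

The bigraph: two copies of a bigraph `C` and one further right vertex adjacent to all left vertices.
The left vertices of `C` are the elements of `ℤ/2 × ℤ/2`, and any two of them, `x ≠ y`, have exactly
two, four or six right vertices with neighborhood `{x, y}`, according to the value of `x + y`. The
involutions that swap the two copies and translate by an element of `ℤ/2 × ℤ/2` belong to folds and
generate a group transitive on the left vertices. But no fold separates two left vertices of the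
same copy, hence the preimages of one vertex contain at most one vertex of each copy.
-/

set_option autoImplicit false

namespace Pool.Agent.Results.MP_d5e15b_co.TransitiveNotPercolating

/-- The underlying graph of the bigraph with left vertices `A`, right vertices `B` and adjacency
`adj`. -/
def graph {A B : Type} (adj : A → B → Prop) : SimpleGraph (A ⊕ B) where
  Adj u v := (∃ a b, u = Sum.inl a ∧ v = Sum.inr b ∧ adj a b) ∨
    (∃ a b, v = Sum.inl a ∧ u = Sum.inr b ∧ adj a b)
  symm := ⟨fun _ _ h => h.symm⟩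
  loopless := ⟨by
    rintro u (⟨a, b, h1, h2, -⟩ | ⟨a, b, h1, h2, -⟩)
    · rw [h1] at h2; exact Sum.inl_ne_inr h2
    · rw [h1] at h2; exact Sum.inl_ne_inr h2⟩

/-- A pair of permutations of the two sides acts on the vertices. -/
def act {A B : Type} (g : Equiv.Perm A × Equiv.Perm B) (v : A ⊕ B) : A ⊕ B := Sum.map g.1 g.2 v

/-- Automorphisms of a bigraph: pairs of permutations of the two sides that preserve adjacency. -/
def IsAut {A B : Type} (adj : A → B → Prop) (g : Equiv.Perm A × Equiv.Perm B) : Prop :=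
  ∀ a b, adj (g.1 a) (g.2 b) ↔ adj a b

/-- The fixed vertices. -/
def Fix {A B : Type} (g : Equiv.Perm A × Equiv.Perm B) : Set (A ⊕ B) := {v | act g v = v}

/-- Cut-involutions: `φ² = id` and `G - Fix(φ)` is disconnected. -/
def IsCutInvolution {A B : Type} (adj : A → B → Prop) (g : Equiv.Perm A × Equiv.Perm B) : Prop :=
  IsAut adj g ∧ g * g = 1 ∧ ¬ ((graph adj).induce (Fix g)ᶜ).Preconnected

/-- Folds `(φ, L)`: `L` is a union of components of `G - Fix(φ)`, and `L`, `Fix(φ)`, `φ(L)`
partition the vertex set. -/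
def IsFold {A B : Type} (adj : A → B → Prop) (g : Equiv.Perm A × Equiv.Perm B)
    (L : Set (A ⊕ B)) : Prop :=
  IsCutInvolution adj g ∧
    (Disjoint L (Fix g) ∧ ∀ u ∈ L, ∀ v ∉ Fix g, (graph adj).Adj u v → v ∈ L) ∧
    (Disjoint L (act g '' L) ∧ Disjoint (Fix g) (act g '' L) ∧ L ∪ Fix g ∪ act g '' L = Set.univ)

open Classical in
/-- The left-folding map of `(φ, L)` on the left vertices. -/
noncomputable def foldMap {A B : Type} (g : Equiv.Perm A × Equiv.Perm B) (L : Set (A ⊕ B))
    (a : A) : A := if Sum.inl a ∈ L then a else g.1 a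

/-- `G` is left-cut-percolating. -/
def Percolating {A B : Type} (adj : A → B → Prop) : Prop :=
  ∃ (m : ℕ) (U : ℕ → Set A), (∃ a, U 0 = {a}) ∧ U m = Set.univ ∧
    ∀ i < m, ∃ g L, IsFold adj g L ∧ U (i + 1) = foldMap g L ⁻¹' U i

/-- The group generated by the involutions that belong to a fold. -/
def foldGroup {A B : Type} (adj : A → B → Prop) : Subgroup (Equiv.Perm A × Equiv.Perm B) :=
  Subgroup.closure {g | ∃ L, IsFold adj g L}

/-- The group generated by the folds is transitive on the left vertices. -/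
def FoldTransitive {A B : Type} (adj : A → B → Prop) : Prop :=
  ∀ a a' : A, ∃ g ∈ foldGroup adj, g.1 a = a'

/-! ### The bigraph -/

/-- the four-group -/
abbrev K := ZMod 2 × ZMod 2

/-- left vertices: two copies of the four-group -/
abbrev Lf := Bool × K

/-- right vertices: two copies of `K × Fin 6` and one further vertex `none` -/
abbrev Rt := Option (Bool × K × Fin 6)

/-- the differences -/
def D : Fin 6 → K := ![(1, 0), (0, 1), (0, 1), (1, 1), (1, 1), (1, 1)]

/-- adjacency -/
def ad : Lf → Rt → Bool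
  | _, none => true
  | (c, x), some (c', y, t) => c == c' && (x == y || x == y + D t)

/-- the bigraph -/
def Ex : Lf → Rt → Prop := fun a b => ad a b = true

instance : ∀ a b, Decidable (Ex a b) := fun a b => inferInstanceAs (Decidable (ad a b = true))

/-- number of common neighbors of two left vertices -/
def cn (a a' : Lf) : ℕ := (Finset.univ.filter fun b : Rt => Ex a b ∧ Ex a' b).card

theorem cn_aut {g : Equiv.Perm Lf × Equiv.Perm Rt} (hg : IsAut Ex g) (a a' : Lf) :
    cn (g.1 a) (g.1 a') = cn a a' := by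
  unfold cn
  symm
  refine Finset.card_bij' (fun b _ => g.2 b) (fun b _ => g.2.symm b) ?_ ?_ ?_ ?_
  · intro b hb
    rw [Finset.mem_filter] at hb ⊢
    exact ⟨Finset.mem_univ _, (hg a b).2 hb.2.1, (hg a' b).2 hb.2.2⟩
  · intro b hb
    rw [Finset.mem_filter] at hb ⊢
    refine ⟨Finset.mem_univ _, (hg a _).1 ?_, (hg a' _).1 ?_⟩
    · rw [Equiv.apply_symm_apply]; exact hb.2.1
    · rw [Equiv.apply_symm_apply]; exact hb.2.2
  · intro b _; simp
  · intro b _; simp

theorem cn_same : ∀ a a' : Lf, a ≠ a' → (1 < cn a a' ↔ a.1 = a'.1) := by decide +kernel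

theorem cn_ne_aux : ∀ (c : Bool) (x y z : K), x ≠ y → x ≠ z → y ≠ z →
    cn (c, x) (c, z) ≠ cn (c, y) (c, z) := by decide +kernel

theorem cn_ne (a a' z : Lf) (h1 : a.1 = a'.1) (h2 : a.1 = z.1) (h3 : a ≠ a') (h4 : a ≠ z)
    (h5 : a' ≠ z) : cn a z ≠ cn a' z := by
  obtain ⟨c, x⟩ := a
  obtain ⟨c', y⟩ := a'
  obtain ⟨c'', z⟩ := z
  change c = c' at h1
  change c = c'' at h2
  subst h1
  subst h2
  exact cn_ne_aux c x y z (fun h => h3 (by rw [h])) (fun h => h4 (by rw [h]))
    (fun h => h5 (by rw [h]))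

theorem private_vertex : ∀ a a' : Lf, a.1 = a'.1 → a ≠ a' →
    ∃ b : Rt, ∀ z : Lf, Ex z b ↔ z = a ∨ z = a' := by decide +kernel

theorem third : ∀ a a' : Lf, a.1 = a'.1 → ∃ z : Lf, z.1 = a.1 ∧ z ≠ a ∧ z ≠ a' := by
  decide +kernel

/-- if `φ u ≠ v`, then a non-fixed vertex links the non-fixed left vertices `u`, `v` of one copy -/
theorem link {g : Equiv.Perm Lf × Equiv.Perm Rt} {L : Set (Lf ⊕ Rt)} (hf : IsFold Ex g L)
    {u v : Lf} (huv : u.1 = v.1) (hne : u ≠ v) (hu : g.1 u ≠ u) (hv : g.1 v ≠ v)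
    (huL : Sum.inl u ∈ L) (h : g.1 u ≠ v) : Sum.inl v ∈ L := by
  obtain ⟨⟨hg, -, -⟩, ⟨-, hcl⟩, -⟩ := hf
  obtain ⟨b, hb⟩ := private_vertex u v huv hne
  have hbf : Sum.inr b ∉ Fix g := by
    intro hb'
    have hb1 : g.2 b = b := by
      have : Sum.inr (g.2 b) = (Sum.inr b : Lf ⊕ Rt) := hb'
      exact Sum.inr_injective this
    have h1 : Ex (g.1 u) b := by
      have := (hg u b).2 ((hb u).2 (Or.inl rfl))
      rwa [hb1] at this
    rcases (hb _).1 h1 with h2 | h2
    · exact hu h2
    · exact h h2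
  have hvf : Sum.inl v ∉ Fix g := by
    intro hv'
    have : Sum.inl (g.1 v) = (Sum.inl v : Lf ⊕ Rt) := hv'
    exact hv (Sum.inl_injective this)
  have h1 : Sum.inr b ∈ L := hcl _ huL _ hbf (Or.inl ⟨u, b, rfl, rfl, (hb u).2 (Or.inl rfl)⟩)
  exact hcl _ h1 _ hvf (Or.inr ⟨v, b, rfl, rfl, (hb v).2 (Or.inr rfl)⟩)

/-- no fold separates two left vertices of the same copy -/
theorem not_separated {g : Equiv.Perm Lf × Equiv.Perm Rt} {L : Set (Lf ⊕ Rt)}
    (hf : IsFold Ex g L) {u v : Lf} (huv : u.1 = v.1) (huL : Sum.inl u ∈ L) (hv : g.1 v ≠ v) :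
    Sum.inl v ∈ L := by
  by_cases hne : u = v
  · rwa [← hne]
  have hinv : ∀ a, g.1 (g.1 a) = a := by
    intro a
    have h1 : (g * g).1 a = a := by rw [hf.1.2.1]; rfl
    exact h1
  have hu : g.1 u ≠ u := by
    intro h
    refine Set.disjoint_left.1 hf.2.1.1 huL ?_
    change Sum.inl (g.1 u) = Sum.inl u
    rw [h]
  by_cases h : g.1 u = v
  · obtain ⟨z, hz1, hzu, hzv⟩ := third u v huv
    have hz : g.1 z ≠ z := by
      intro hz
      have h1 := cn_aut hf.1.1 u z
      rw [h, hz] at h1
      exact cn_ne v u z huv.symm (huv.symm.trans hz1.symm) (Ne.symm hne) hzv.symm hzu.symm h1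
    have hzL : Sum.inl z ∈ L := link hf hz1.symm hzu.symm hu hz huL (by rw [h]; exact hzv.symm)
    refine link hf (hz1.trans huv) hzv hz hv hzL ?_
    intro h2
    apply hzu
    rw [← hinv z, h2, ← h, hinv]
  · exact link hf huv hne hu hv huL h

/-- the folding maps are injective on each copy and map it into one copy -/
theorem foldMap_inj {g : Equiv.Perm Lf × Equiv.Perm Rt} {L : Set (Lf ⊕ Rt)}
    (hf : IsFold Ex g L) {u v : Lf} (huv : u.1 = v.1) (hne : u ≠ v) :
    foldMap g L u ≠ foldMap g L v ∧ (foldMap g L u).1 = (foldMap g L v).1 := by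
  have hauto : g.1 u ≠ g.1 v ∧ (g.1 u).1 = (g.1 v).1 := by
    have h1 : g.1 u ≠ g.1 v := fun h => hne (g.1.injective h)
    refine ⟨h1, (cn_same _ _ h1).1 ?_⟩
    rw [cn_aut hf.1.1]
    exact (cn_same _ _ hne).2 huv
  unfold foldMap
  by_cases hu : Sum.inl u ∈ L <;> by_cases hv : Sum.inl v ∈ L
  · rw [if_pos hu, if_pos hv]
    exact ⟨hne, huv⟩
  · rw [if_pos hu, if_neg hv]
    have h1 : g.1 v = v := by
      by_contra h
      exact hv (not_separated hf huv hu h)
    rw [h1]
    exact ⟨hne, huv⟩
  · rw [if_neg hu, if_pos hv]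
    have h1 : g.1 u = u := by
      by_contra h
      exact hu (not_separated hf huv.symm hv h)
    rw [h1]
    exact ⟨hne, huv⟩
  · rw [if_neg hu, if_neg hv]
    exact hauto

theorem not_percolating : ¬ Percolating Ex := by
  rintro ⟨m, U, ⟨a, ha⟩, hm, hstep⟩
  have key : ∀ i ≤ m, ∀ u ∈ U i, ∀ v ∈ U i, u.1 = v.1 → u = v := by
    intro i
    induction i with
    | zero =>
      intro _ u hu v hv _
      rw [ha] at hu hv
      rw [Set.mem_singleton_iff.1 hu, Set.mem_singleton_iff.1 hv]
    | succ i ih =>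
      intro hi u hu v hv huv
      obtain ⟨g, L, hf, hU⟩ := hstep i hi
      rw [hU] at hu hv
      by_contra hne
      obtain ⟨h1, h2⟩ := foldMap_inj hf huv hne
      exact h1 (ih (by omega) _ hu _ hv h2)
  have h1 := key m le_rfl (true, (0, 0)) (by rw [hm]; trivial) (true, (0, 1))
    (by rw [hm]; trivial) rfl
  exact absurd h1 (by decide)

/-! ### Transitivity -/

theorem add_self : ∀ x : K, x + x = 0 := by decide

theorem add_add_self (x e : K) : x + e + e = x := by rw [add_assoc, add_self, add_zero]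

/-- swap the copies and translate by `e`, on the left side -/
def sl (e : K) : Equiv.Perm Lf where
  toFun a := (!a.1, a.2 + e)
  invFun a := (!a.1, a.2 + e)
  left_inv a := by
    obtain ⟨c, x⟩ := a
    simp [add_add_self]
  right_inv a := by
    obtain ⟨c, x⟩ := a
    simp [add_add_self]

/-- the same on the right side -/
def sr (e : K) : Equiv.Perm Rt :=
  Equiv.optionCongr
    { toFun := fun b => (!b.1, b.2.1 + e, b.2.2)
      invFun := fun b => (!b.1, b.2.1 + e, b.2.2)
      left_inv := by
        rintro ⟨c, x, t⟩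
        simp [add_add_self]
      right_inv := by
        rintro ⟨c, x, t⟩
        simp [add_add_self] }

/-- the vertices of the copy `true` -/
def L0 : Set (Lf ⊕ Rt) :=
  {v | (∃ x : K, v = Sum.inl (true, x)) ∨ ∃ y : K × Fin 6, v = Sum.inr (some (true, y))}

theorem sl_apply (e : K) (c : Bool) (x : K) : sl e (c, x) = (!c, x + e) := rfl

theorem sr_none (e : K) : sr e none = none := rfl

theorem sr_some (e : K) (c : Bool) (x : K) (t : Fin 6) :
    sr e (some (c, x, t)) = some (!c, x + e, t) := rfl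

theorem mem_fix (e : K) (v : Lf ⊕ Rt) : v ∈ Fix (sl e, sr e) ↔ v = Sum.inr none := by
  change Sum.map (sl e) (sr e) v = v ↔ _
  constructor
  · intro h
    rcases v with ⟨c, x⟩ | b
    · have h1 := congrArg Prod.fst (Sum.inl_injective h)
      rw [sl_apply] at h1
      cases c <;> simp at h1
    · rcases b with _ | ⟨c, x, t⟩
      · rfl
      · have h1 := Sum.inr_injective h
        rw [sr_some] at h1
        have h2 := congrArg Prod.fst (Option.some_injective _ h1)
        cases c <;> simp at h2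
  · rintro rfl
    rfl

theorem isAut (e : K) : IsAut Ex (sl e, sr e) := by
  rintro ⟨c, x⟩ b
  rcases b with _ | ⟨c', y, t⟩
  · exact Iff.rfl
  · change ad (!c, x + e) (some (!c', y + e, t)) = true ↔ ad (c, x) (some (c', y, t)) = true
    revert e c x c' y t
    decide +kernel

theorem closed (e : K) : ∀ u ∈ L0, ∀ v ∉ Fix (sl e, sr e), (graph Ex).Adj u v → v ∈ L0 := by
  intro u hu v hv h
  rw [mem_fix] at hv
  rcases h with ⟨⟨c, x⟩, b, rfl, rfl, hab⟩ | ⟨⟨c, x⟩, b, rfl, rfl, hab⟩
  · rcases hu with ⟨x', h1⟩ | ⟨y, h1⟩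
    · have h2 := Sum.inl_injective h1
      have h3 : c = true := congrArg Prod.fst h2
      rcases b with _ | ⟨c', y, t⟩
      · exact absurd rfl hv
      · refine Or.inr ⟨(y, t), ?_⟩
        have h4 : ad (c, x) (some (c', y, t)) = true := hab
        simp only [ad, Bool.and_eq_true, beq_iff_eq] at h4
        rw [← h4.1, h3]
    · exact absurd h1 (by simp)
  · rcases hu with ⟨x', h1⟩ | ⟨y, h1⟩
    · exact absurd h1 (by simp)
    · have h2 := Sum.inr_injective h1
      subst h2
      obtain ⟨y, t⟩ := y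
      have h4 : ad (c, x) (some (true, y, t)) = true := hab
      simp only [ad, Bool.and_eq_true, beq_iff_eq] at h4
      exact Or.inl ⟨x, by rw [h4.1]⟩

theorem isCutInvolution (e : K) : IsCutInvolution Ex (sl e, sr e) := by
  refine ⟨isAut e, ?_, ?_⟩
  · refine Prod.ext (Equiv.ext fun a => ?_) (Equiv.ext fun b => ?_)
    · obtain ⟨c, x⟩ := a
      change sl e (sl e (c, x)) = (c, x)
      rw [sl_apply, sl_apply, Bool.not_not, add_add_self]
    · rcases b with _ | ⟨c, x, t⟩
      · rfl
      · change sr e (sr e (some (c, x, t))) = some (c, x, t)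
        rw [sr_some, sr_some, Bool.not_not, add_add_self]
  · intro h
    have hm : ∀ c : Bool, (Sum.inl (c, (0, 0)) : Lf ⊕ Rt) ∈ (Fix (sl e, sr e))ᶜ := by
      intro c hc
      rw [mem_fix] at hc
      exact Sum.inl_ne_inr hc
    obtain ⟨w⟩ := h ⟨_, hm true⟩ ⟨_, hm false⟩
    have key : ∀ (u v : ((Fix (sl e, sr e))ᶜ : Set (Lf ⊕ Rt))),
        ((graph Ex).induce (Fix (sl e, sr e))ᶜ).Walk u v → u.1 ∈ L0 → v.1 ∈ L0 := by
      intro u v w
      induction w with
      | nil => exact id
      | @cons u v w hadj _ ih =>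
        intro hu
        exact ih (closed e _ hu _ v.2 hadj)
    rcases key _ _ w (Or.inl ⟨_, rfl⟩) with ⟨x, hx⟩ | ⟨y, hy⟩
    · have := congrArg Prod.fst (Sum.inl_injective hx)
      exact Bool.false_ne_true this
    · exact Sum.inl_ne_inr hy

theorem isFold (e : K) : IsFold Ex (sl e, sr e) L0 := by
  have himg : ∀ v, v ∈ act (sl e, sr e) '' L0 →
      (∃ x : K, v = Sum.inl (false, x)) ∨ ∃ y : K × Fin 6, v = Sum.inr (some (false, y)) := by
    rintro v ⟨u, ⟨x, rfl⟩ | ⟨⟨y, t⟩, rfl⟩, rfl⟩
    · exact Or.inl ⟨x + e, rfl⟩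
    · exact Or.inr ⟨(y + e, t), rfl⟩
  refine ⟨isCutInvolution e, ⟨?_, closed e⟩, ?_, ?_, ?_⟩
  · rw [Set.disjoint_left]
    rintro v hv hf
    rw [mem_fix] at hf
    subst hf
    rcases hv with ⟨x, hx⟩ | ⟨y, hy⟩
    · exact Sum.inl_ne_inr hx.symm
    · exact absurd (Sum.inr_injective hy) (by simp)
  · rw [Set.disjoint_left]
    rintro v hv hv'
    rcases himg v hv' with ⟨x, rfl⟩ | ⟨y, rfl⟩
    · rcases hv with ⟨x', hx⟩ | ⟨y, hy⟩
      · exact Bool.false_ne_true (congrArg Prod.fst (Sum.inl_injective hx))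
      · exact Sum.inl_ne_inr hy
    · rcases hv with ⟨x', hx⟩ | ⟨y', hy⟩
      · exact Sum.inl_ne_inr hx.symm
      · exact Bool.false_ne_true
          (congrArg Prod.fst (Option.some_injective _ (Sum.inr_injective hy)))
  · rw [Set.disjoint_left]
    rintro v hf hv'
    rw [mem_fix] at hf
    subst hf
    rcases himg _ hv' with ⟨x, hx⟩ | ⟨y, hy⟩
    · exact Sum.inl_ne_inr hx.symm
    · exact absurd (Sum.inr_injective hy) (by simp)
  · ext v
    simp only [Set.mem_union, Set.mem_univ, iff_true]
    rcases v with ⟨c, x⟩ | b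
    · cases c
      · refine Or.inr ⟨Sum.inl (true, x + e), Or.inl ⟨_, rfl⟩, ?_⟩
        change Sum.inl (sl e (true, x + e)) = Sum.inl (false, x)
        rw [sl_apply, add_add_self]
        rfl
      · exact Or.inl (Or.inl (Or.inl ⟨x, rfl⟩))
    · rcases b with _ | ⟨c, x, t⟩
      · exact Or.inl (Or.inr ((mem_fix e _).2 rfl))
      · cases c
        · refine Or.inr ⟨Sum.inr (some (true, x + e, t)), Or.inr ⟨_, rfl⟩, ?_⟩
          change Sum.inr (sr e (some (true, x + e, t))) = Sum.inr (some (false, x, t))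
          rw [sr_some, add_add_self]
          rfl
        · exact Or.inl (Or.inl (Or.inr ⟨(x, t), rfl⟩))

theorem foldTransitive : FoldTransitive Ex := by
  have hmem : ∀ e : K, ((sl e, sr e) : Equiv.Perm Lf × Equiv.Perm Rt) ∈ foldGroup Ex :=
    fun e => Subgroup.subset_closure ⟨L0, isFold e⟩
  rintro ⟨c, x⟩ ⟨c', x'⟩
  by_cases h : c' = !c
  · refine ⟨_, hmem (x + x'), ?_⟩
    change sl (x + x') (c, x) = (c', x')
    rw [sl_apply, h, ← add_assoc, add_self, zero_add]
  · have h' : c' = c := by
      revert h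
      cases c <;> cases c' <;> simp
    refine ⟨(sl (x + x'), sr (x + x')) * (sl 0, sr 0), Subgroup.mul_mem _ (hmem _) (hmem _), ?_⟩
    change sl (x + x') (sl 0 (c, x)) = (c', x')
    rw [sl_apply, sl_apply, add_zero, Bool.not_not, h', ← add_assoc, add_self, zero_add]

/-- the bigraph is connected -/
theorem connected : (graph Ex).Connected := by
  have h0 : ∀ v : Lf ⊕ Rt, (graph Ex).Reachable v (Sum.inr none) := by
    have hl : ∀ a : Lf, (graph Ex).Reachable (Sum.inl a) (Sum.inr none) := fun a =>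
      SimpleGraph.Adj.reachable (Or.inl ⟨a, none, rfl, rfl, rfl⟩)
    rintro (a | b)
    · exact hl a
    · rcases b with _ | ⟨c, x, t⟩
      · exact SimpleGraph.Reachable.refl _
      · refine SimpleGraph.Reachable.trans (SimpleGraph.Adj.reachable ?_) (hl (c, x))
        exact Or.inr ⟨(c, x), some (c, x, t), rfl, rfl, by simp [Ex, ad]⟩
  have : Nonempty (Lf ⊕ Rt) := ⟨Sum.inr none⟩
  exact SimpleGraph.Connected.mk fun u v => (h0 u).trans (h0 v).symm

/-- **Main result.** There is a finite (connected) bigraph, with 8 left vertices, for which the group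
generated by the involutions that belong to folds acts transitively on the left vertices, but which
is not left-cut-percolating. Hence the two properties are not equivalent. -/
theorem result :
    (∃ (A B : Type) (_ : Fintype A) (_ : Fintype B) (adj : A → B → Prop),
      Fintype.card A = 8 ∧ (graph adj).Connected ∧ FoldTransitive adj ∧ ¬ Percolating adj) ∧
    ¬ ∀ (A B : Type) (_ : Fintype A) (_ : Fintype B) (adj : A → B → Prop),
      Percolating adj ↔ FoldTransitive adj :=
  ⟨⟨Lf, Rt, inferInstance, inferInstance, Ex, by decide, connected, foldTransitive,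
    not_percolating⟩, fun h =>
      not_percolating ((h Lf Rt inferInstance inferInstance Ex).2 foldTransitive)⟩

end Pool.Agent.Results.MP_d5e15b_co.TransitiveNotPercolating
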